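import Pool.Agent.P8H40.CY.CovS
import Pool.Agent.P8H40.SE.Exi
import Pool.Agent.P8H63.SE.Key

/-!
# `e`, `1 / π`, Euler's constant and the periods at the integers of a window: few exceptional integers

The integrals of algebraic functions between algebraic limits are periods. Is one of the numbers `e`, `1 / π`, `γ` a
polynomial in such periods? We consider the families of periods

  `I_κj(m) = -∫_m^∞ t^j ∏ g_i(t)^(-a_κi) dt`,  `log (1 + b_i / m)`,  `log m`,   `m = 1, 2, 3, …`

where `g_1, …, g_p ∈ ℤ[X]` are nonconstant with positive leading coefficients and without common or multiple roots,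
`a_1, …, a_q` are different vectors in `([0, 1) ∩ ℚ)^p` for which `∑ a_κi deg g_i` is not an integer, `j + 2 ≤ N_κ`, the number
of the finite branch points, and the `b_i` are different nonzero integers: the incomplete periods of the first and second
kind of the abelian coverings of the line (for example of `y² = g(t)`, `deg g` odd) between infinity and the points of abscissa
`m`. (If the integral does not converge, `I_κj` is the primitive which is `t^(-e)` times an analytic function of `1/t`.)

Let `z_1, …, z_r` be ANY complex numbers, for example `e`, `1 / π`, `γ` and the complete periods of the curves, and let `T` be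
any set of integers in a window `[M, M + M^c]`, `M ≥ M₀`, with mutual distances at least `G`. We show: `T` has at most `r + 1`
exceptional elements, such that for ALL different `m_1, …, m_k` among the other ones every polynomial relation between
`z_1, …, z_r` and the periods at `m_1, …, m_k` together, with coefficients in any number field of degree at most `D` (no bound for
the heights) and of degree at most `δ` in each unknown, is trivial: it is a relation for all values of the periods, that
is, it follows from relations between the `z_i`. Here `c > 0` and `M₀` depend only on the families and on `k`, `r`, `δ`, `D`,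
not on the numbers `z_i`. In particular (`r = 1`), for all these `m_1, …, m_k`:

* `e` and `1 / π` (any transcendental number) are roots of no nonzero polynomial of degree at most `δ` whose coefficients
  are polynomials of degree at most `δ` in the periods at `m_1, …, m_k`;
* `γ` (any number `z`) is no quotient of two such polynomials in the periods at `m_1, …, m_k`, unless `z` is in the field `K`
  of coefficients; and if `z_1` is not a polynomial of bounded degree in `z_2, …, z_r`, it does not become one when these
  periods are adjoined.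

(For `k = 1` it follows that the integers `m` of the window with a nontrivial relation are in at most `r + 1` intervals of
length less than `2 G`.)

The proof: if there is a nontrivial relation for a tuple then the periods at one of its elements are dependent, in
bounded degree, over the `z_i` and the periods at the others. If there are too many exceptions one obtains `r + 2` integers,
the periods at each of them dependent over the `z_i`, the periods at the preceding ones and at other integers of `T`; adding the
groups one after another, the dimension of the space of the polynomials of degree `n` grows too slowly for the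
independence in bounded degree of all the values together, which holds for all tuples of nearby integers
(`MP_12eca1_ag.AbelianCoversAllTuples`; packages by helper63, helper47, helper88; helper93: partial evaluation of relations;
helper5: choice of the exceptions).
-/

set_option autoImplicit false

open Polynomial Filter Module

namespace Pool.Agent.Results.MP_725b61_nt.AtMostFewClusters

/-- the coefficient of the differential form `t^j ∏ g_i(t)^(-a_i) dt` -/
noncomputable def form {p : ℕ} (g : Fin p → ℤ[X]) (a : Fin p → ℚ) (j : ℕ) (t : ℝ) : ℝ :=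
  t ^ j * ∏ i, ((g i).map (Int.castRingHom ℝ)).eval t ^ (-(a i : ℝ))

/-- the exponent `e` of its primitive at infinity -/
noncomputable def expo {p : ℕ} (g : Fin p → ℤ[X]) (a : Fin p → ℚ) (j : ℕ) : ℚ :=
  ∑ i, a i * ((g i).natDegree : ℚ) - ((j : ℚ) + 1)

/-- the number of the finite branch points of the character `a` -/
def branch {p : ℕ} (g : Fin p → ℤ[X]) (a : Fin p → ℚ) : ℕ := ∑ i, if a i = 0 then 0 else (g i).natDegree

/-- `F` is, near infinity, a primitive of the form, and `t^(-e)` times an analytic function of `1/t` -/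
def IsPrim {p : ℕ} (g : Fin p → ℤ[X]) (a : Fin p → ℚ) (j : ℕ) (F : ℝ → ℂ) : Prop :=
  ∃ H : ℂ → ℂ, AnalyticAt ℂ H 0 ∧ ∀ᶠ t : ℝ in atTop, HasDerivAt F ((form g a j t : ℝ) : ℂ) t ∧
    F t = ((t ^ (-(expo g a j : ℝ)) : ℝ) : ℂ) * H (1 / (t : ℂ))

/-- the places of the periods: `none`, `(κ, j)` with `j + 2 ≤ N_κ`, and `i ≤ s` -/
abbrev Place {p q : ℕ} (g : Fin p → ℤ[X]) (a : Fin q → Fin p → ℚ) (s : ℕ) : Type :=
  Option ((Σ κ : Fin q, Fin (branch g (a κ) - 1)) ⊕ Fin s)

/-- the periods at `m`: `log m`, `I_κj(m)`, `log (1 + b_i / m)` -/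
noncomputable def periods {p q s : ℕ} (g : Fin p → ℤ[X]) (a : Fin q → Fin p → ℚ) (b : Fin s → ℤ)
    (I : Fin q → ℕ → ℝ → ℂ) (m : ℕ) : Place g a s → ℂ
  | none => ((Real.log m : ℝ) : ℂ)
  | some (Sum.inl y) => I y.1 y.2 m
  | some (Sum.inr i) => ((Real.log (1 + b i / m) : ℝ) : ℂ)

/-- The primitives exist. -/
theorem exists_prim {p : ℕ} (g : Fin p → ℤ[X]) (hlc : ∀ i, 0 < (g i).leadingCoeff) (a : Fin p → ℚ)
    (hinf : ∀ z : ℤ, ∑ i, a i * ((g i).natDegree : ℚ) ≠ z) (j : ℕ) : ∃ F, IsPrim g a j F := by
  refine P8H40.SE.exists_prim g a j hlc fun z hz => ?_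
  unfold P8H40.SE.ex at hz
  apply hinf (z + ((j : ℕ) + 1))
  push_cast
  linarith

/-- They are the integrals to infinity if these converge. -/
theorem eq_integral {p : ℕ} (g : Fin p → ℤ[X]) (hlc : ∀ i, 0 < (g i).leadingCoeff) (a : Fin p → ℚ) (j : ℕ)
    (he : 0 < expo g a j) (F : ℝ → ℂ) (hF : IsPrim g a j F) :
    ∀ᶠ t : ℝ in atTop, F t = -((∫ u in Set.Ioi t, form g a j u : ℝ) : ℂ) :=
  P8H40.SE.prim_integral g a j hlc he hF

/-- The theorem. -/
theorem result {p q s : ℕ} (g : Fin p → ℤ[X]) (hg : Squarefree (∏ i, (g i).map (Int.castRingHom ℚ)))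
    (hdeg : ∀ i, 0 < (g i).natDegree) (hlc : ∀ i, 0 < (g i).leadingCoeff)
    (a : Fin q → Fin p → ℚ) (ha : ∀ κ i, 0 ≤ a κ i ∧ a κ i < 1) (hinj : Function.Injective a)
    (hinf : ∀ κ, ∀ z : ℤ, ∑ i, a κ i * ((g i).natDegree : ℚ) ≠ z)
    (b : Fin s → ℤ) (hb : Function.Injective b) (hb0 : ∀ i, b i ≠ 0)
    (I : Fin q → ℕ → ℝ → ℂ) (hI : ∀ κ j, IsPrim g (a κ) j (I κ j)) :
    ∃ G : ℕ, ∀ k r δ D : ℕ, ∃ (c : ℝ) (M₀ : ℕ), 0 < c ∧ ∀ M : ℕ, M₀ ≤ M → ∀ z : Fin r → ℂ,
      ∀ T : Finset ℕ, (∀ t ∈ T, M ≤ t ∧ (t : ℝ) ≤ M + (M : ℝ) ^ c) → (∀ t ∈ T, ∀ t' ∈ T, t ≠ t' → (G : ℤ) ≤ |(t : ℤ) - t'|) →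
      ∃ S : Finset ℕ, S ⊆ T ∧ S.card ≤ r + 1 ∧ ∀ m : Fin k → ℕ, Function.Injective m → (∀ l, m l ∈ T \ S) →
        ∀ (K : IntermediateField ℚ ℂ) [FiniteDimensional ℚ K], finrank ℚ K ≤ D →
          ∀ P : MvPolynomial (Fin r ⊕ Fin k × Place g a s) K, (∀ x, P.degreeOf x ≤ δ) →
            MvPolynomial.aeval (Sum.elim z fun x => periods g a b I (m x.1) x.2) P = 0 →
              (MvPolynomial.aeval (Sum.elim (fun i => MvPolynomial.C (z i)) MvPolynomial.X) P :
                MvPolynomial (Fin k × Place g a s) ℂ) = 0 := by
  obtain ⟨G, -, hG⟩ := P8H40.CY.cover_sets P8H63.SE.key_thm P8H63.SE.sim_thm P8H47.SE.pw P8H47.SE.pri P8H88.SE.gfd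
    P8H47.SE.val g hg hdeg hlc a ha hinj hinf b hb hb0 I fun κ j _ => hI κ j
  refine ⟨G, fun k r δ D => ?_⟩
  obtain ⟨c, M₀, hc, h⟩ := hG k r δ D
  refine ⟨c, M₀, hc, fun M hM z T hT hTs => ?_⟩
  obtain ⟨S, hS, hSc, hm⟩ := h M hM z T hT hTs
  refine ⟨S, hS, hSc, fun m h1 h2 K _ hK P hP h0 => hm m h1 h2 K hK P hP ?_⟩
  rw [← h0]
  congr 2
  funext x
  rcases x with i | ⟨l, (_ | (y | i))⟩ <;> rfl

end Pool.Agent.Results.MP_725b61_nt.AtMostFewClusters
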