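import Pool.Agent.P8H40.CY.Fin4
import Pool.Agent.P8H93.CY.Eli
import Pool.Agent.P8H5.CY.Gre

/-!
# `e`, `1/π`, Euler's constant and the periods of the fibres of the hypergeometric Calabi-Yau families

Let `α_1, …, α_m` be rational numbers which are not integers, `c ≥ 1` an integer and `θ = x d/dx`. The hypergeometric operator
`θ^(2m) - c x ∏_j (θ + α_j) (θ + 1 - α_j)` has maximally unipotent monodromy at `x = 0`; for `m = 2` and 14 choices of
`α`, `c` its solutions are the periods of a family of Calabi-Yau threefolds `X_t` over `ℚ`, `x = 1/t` (for `α = (1/5, 2/5)`,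
`c = 5^5`: the mirrors of the quintic threefolds). The matrix of the (complete) periods of the fibre `X_t` is
`P_t = R_t Y(1/t) Ω`, where the entries of `Y` are the derivatives `θ^i f_j` of the Frobenius basis of solutions, `R_t` is a
rational matrix (a choice of algebraic forms) and `Ω` is the matrix of the periods of the limit motive at `x = 0`. For the
mirror quintics the entries of `Ω` are polynomials in `2πi` and `ζ(3)` over `ℚ` (for a suitable normalisation). The Riemann
relations say that `Y(1/t)` lies on the torsor `{X : Xᵀ J_t X = J_lim}` of the symplectic group, `J_t`, `J_lim` rational.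

The theorem: let `z_1, …, z_r` be ANY complex numbers and `k` a natural number. Let `T` be any set of integers in the interval
`[M, M + M^κ]` whose mutual distances are at least `G`. Then `T` has at most `r + 1` exceptional elements, such that for all
different `t_1, …, t_k` among the other elements of `T`: all polynomial relations between the numbers `z_i`, `log t_l` and the
periods of the fibres `X_{t_l}`, `l = 1, …, k` (of degree at most `δ` in each of them, with coefficients of any height in any number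
field `K` of degree at most `D`) hold on the whole product of the `k` torsors, with `z` fixed and the `log t_l` replaced by any
numbers. Here the `Ω_l` are any matrices whose entries are polynomials of degree at most `δ` in the `z_i`. Consequently
(`ring`) every number in `K[z]` (in degree at most `δ`), for instance `z_1 = e`, `1/π` or `γ`, is a polynomial (of degree at most `δ`)
in the `log t_l` and the periods of the `X_{t_l}` over `K` only if it is a polynomial in the entries of the `Ω_l`, the periods of the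
limit motive, over `K`; and (`field`) each `z_i` is algebraic (in degree at most `δ`) over the field generated by the other `z_j`,
the `log t_l` and the periods of the `X_{t_l}` only if it is algebraic over the field generated by the other `z_j` and the entries
of the `Ω_l`.

So with `z = (e, 2πi, ζ(3))`, the number `e` is, in bounded degree, algebraic over the field of the periods of the mirror
quintics `X_{t_1}, …, X_{t_k}` only if it is algebraic over `ℚ(π, ζ(3))`, for all `t_1, …, t_k` in `T` except for at most four elements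
of `T`. With `z = (1/π, 2πi, ζ(3))`, the number `1/π` is a polynomial over `K` in the periods of `X_{t_1}, …, X_{t_k}` only if it is a
polynomial over `K` in `π` and `ζ(3)`.

Proof: at fibres with distances at least `G` the holomorphic parts are independent (the linear independence criterion of
the starting files, `Pool.Agent.Y124`). If a tuple has a further relation then one of its fibres is dependent, in bounded degree,
over the `z_i` and the other fibres. One obtains `r + 2` fibres, each dependent over the `z_i`, the preceding ones and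
fibres outside, and the ring generated by everything grows too slowly. The symplectic matrices are parametrised by the
Cayley transform. The torsor has a dense set of rational points. (Authors: helper40; helper52: Cayley transform and density;
helper76: substitution with denominators; helper93: partial evaluation of relations; helper5: choice of the exceptions.)
-/

set_option autoImplicit false

open PowerSeries Module

namespace Pool.Agent.Results.MP_725b61_nt.CalabiYauFibres

/-- the power series `k + ε` in the variable `ε` -/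
noncomputable def shift (k : ℕ) : PowerSeries ℚ := C (k : ℚ) + X

/-- `a_k(ε) = ∏_{l < k} ∏_j (l + ε + α_j) (l + ε + 1 - α_j) / (l + 1 + ε)^(2m)`. The series
`∑_k a_k(ε) c^k x^(k + ε)` solves the equation `(θ^(2m) - c x ∏_j (θ + α_j) (θ + 1 - α_j)) f = ε^(2m) x^ε`, hence its
coefficients `f_j` at `ε^j` with `j < 2m` are solutions of the homogeneous equation (the Frobenius basis). -/
noncomputable def frob {m : ℕ} (α : Fin m → ℚ) (k : ℕ) : PowerSeries ℚ :=
  ∏ l ∈ Finset.range k, ((∏ j, ((shift l + C (α j)) * (shift l + C (1 - α j)))) * ((shift (l + 1))⁻¹) ^ (2 * m))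

/-- The matrix with the entries `(θ^i f_j)(1 / t)`, where `f_j(x)` is the coefficient of `ε^j` in the series
`∑_k a_k(ε) c^k x^(k + ε)`, `x^ε = ∑_l (log x)^l ε^l / l!`. -/
noncomputable def Y {m : ℕ} (α : Fin m → ℚ) (c t : ℕ) : Matrix (Fin (2 * m)) (Fin (2 * m)) ℂ :=
  Matrix.of fun i j => ∑ l ∈ Finset.range ((j : ℕ) + 1), ((Real.log (1 / t) ^ l / l.factorial : ℝ) : ℂ) *
    ∑' k : ℕ, ((coeff ((j : ℕ) - l) (shift k ^ (i : ℕ) * frob α k) : ℚ) : ℂ) * ((c : ℂ) / (t : ℂ)) ^ k

/-- The values of the unknowns: the numbers `z i`, the numbers `L l` and the entries of the matrices `P l`. -/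
def point {r n k : ℕ} (z : Fin r → ℂ) (L : Fin k → ℂ) (P : Fin k → Matrix (Fin n) (Fin n) ℂ) :
    Fin r ⊕ Fin k × Option (Fin n × Fin n) → ℂ :=
  Sum.elim z fun o => o.2.elim (L o.1) fun p => P o.1 p.1 p.2

/-- The entries of all matrices of a tuple. -/
def entries {n k : ℕ} (Ω : Fin k → Matrix (Fin n) (Fin n) ℂ) : Set ℂ := {w | ∃ l i j, w = Ω l i j}

/-- The conclusions for the fibres at `1/t l` with the period matrices `P l = R l Y(1/t l) Ω l`; `J` and `Jlim` are rational
matrices with `Y(1/t)ᵀ (J t) Y(1/t) = Jlim`. -/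
structure Free {m r k : ℕ} (α : Fin m → ℚ) (c : ℕ) (t : Fin k → ℕ) (J : ℕ → Matrix (Fin (2 * m)) (Fin (2 * m)) ℚ)
    (Jlim : Matrix (Fin (2 * m)) (Fin (2 * m)) ℚ) (δ : ℕ) (z : Fin r → ℂ) (K : IntermediateField ℚ ℂ)
    (R : Fin k → Matrix (Fin (2 * m)) (Fin (2 * m)) K) (Ω : Fin k → Matrix (Fin (2 * m)) (Fin (2 * m)) ℂ) : Prop where
  /-- all relations over `K` of degree at most `δ` between the `z i`, the `log (t l)` and the entries of the `P l` hold on the
  product of the torsors -/
  rel : ∀ F : MvPolynomial (Fin r ⊕ Fin k × Option (Fin (2 * m) × Fin (2 * m))) K, (∀ x, F.degreeOf x ≤ δ) →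
    MvPolynomial.aeval (point z (fun l => ((Real.log (t l) : ℝ) : ℂ))
      fun l => (R l).map (algebraMap K ℂ) * Y α c (t l) * Ω l) F = 0 →
    ∀ (L : Fin k → ℂ) (X : Fin k → Matrix (Fin (2 * m)) (Fin (2 * m)) ℂ),
      (∀ l, (X l).transpose * (J (t l)).map (algebraMap ℚ ℂ) * X l = Jlim.map (algebraMap ℚ ℂ)) →
      MvPolynomial.aeval (point z L fun l => (R l).map (algebraMap K ℂ) * X l * Ω l) F = 0
  /-- a number `p(z)` which is a polynomial in the `log (t l)` and the entries of the `P l` is a polynomial in the entries of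
  the `Ω l` -/
  ring : ∀ (p : MvPolynomial (Fin r) K) (q : MvPolynomial (Fin k × Option (Fin (2 * m) × Fin (2 * m))) K),
    (∀ x, p.degreeOf x ≤ δ) → (∀ x, q.degreeOf x ≤ δ) →
    MvPolynomial.aeval z p = MvPolynomial.aeval (fun o => point z (fun l => ((Real.log (t l) : ℝ) : ℂ))
      (fun l => (R l).map (algebraMap K ℂ) * Y α c (t l) * Ω l) (Sum.inr o)) q →
    MvPolynomial.aeval z p ∈ Algebra.adjoin K (entries Ω)
  /-- if `z i` satisfies an equation over the field generated by the other `z j`, the `log (t l)` and the entries of the `P l`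
  (not all numbers `ζ` satisfy it) then it is algebraic over the field generated by the other `z j` and the entries of the `Ω l` -/
  field : ∀ (i : Fin r) (F : MvPolynomial (Fin r ⊕ Fin k × Option (Fin (2 * m) × Fin (2 * m))) K), (∀ x, F.degreeOf x ≤ δ) →
    MvPolynomial.aeval (point z (fun l => ((Real.log (t l) : ℝ) : ℂ))
      fun l => (R l).map (algebraMap K ℂ) * Y α c (t l) * Ω l) F = 0 →
    (∃ ζ : ℂ, MvPolynomial.aeval (point (Function.update z i ζ) (fun l => ((Real.log (t l) : ℝ) : ℂ))
      fun l => (R l).map (algebraMap K ℂ) * Y α c (t l) * Ω l) F ≠ 0) →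
    IsAlgebraic (Algebra.adjoin K (z '' {j | j ≠ i} ∪ entries Ω)) (z i)

theorem Y_eq {m : ℕ} (α : Fin m → ℚ) (c t : ℕ) (hc : 1 ≤ c) (ht : 1 ≤ t) : Y α c t = Pool.Agent.P8H40.HA.Ya α c t := by
  have hc0 : (c : ℝ) ≠ 0 := by
    have : c ≠ 0 := by omega
    exact_mod_cast this
  have ht0 : (t : ℝ) ≠ 0 := by
    have : t ≠ 0 := by omega
    exact_mod_cast this
  ext i j
  unfold Y Pool.Agent.P8H40.HA.Ya
  rw [Matrix.of_apply, Matrix.mul_apply]
  have hE : ∀ a : Fin (2 * m), Pool.Agent.Y119.HY.E (Pool.Agent.Y119.HY.cm (Pool.Agent.Y119.HY.Am (2 * m)))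
      (-((Real.log t : ℝ) : ℂ)) a j = ∑ l ∈ Finset.range (2 * m),
        if (j : ℕ) = a + l then ((Real.log (1 / t) ^ l / l.factorial : ℝ) : ℂ) else 0 := by
    intro a
    unfold Pool.Agent.Y119.HY.E
    rw [Matrix.sum_apply]
    refine Finset.sum_congr rfl fun l _ => ?_
    rw [Matrix.smul_apply, ← Pool.Agent.Y119.HY.cm_pow, Pool.Agent.Y119.HY.cm_apply, Pool.Agent.Y119.HY.Am_pow, smul_eq_mul,
      one_div, Real.log_inv]
    split_ifs
    · push_cast
      ring
    · simp
  simp only [hE, Finset.mul_sum]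
  rw [Finset.sum_comm]
  have hsub : Finset.range ((j : ℕ) + 1) ⊆ Finset.range (2 * m) := by
    intro l hl
    rw [Finset.mem_range] at hl ⊢
    have := j.2
    omega
  refine Finset.sum_subset_zero_on_sdiff hsub (fun l hl => ?_) fun l hl => ?_
  · rw [Finset.mem_sdiff, Finset.mem_range, Finset.mem_range] at hl
    refine Finset.sum_eq_zero fun a _ => ?_
    rw [if_neg (by omega), mul_zero]
  · rw [Finset.mem_range] at hl
    have hj := j.2
    rw [Finset.sum_eq_single (⟨(j : ℕ) - l, by omega⟩ : Fin (2 * m))]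
    · rw [if_pos (by simp only; omega), mul_comm]
      congr 1
      unfold Pool.Agent.P8H40.HA.Vx Pool.Agent.Y113.ev
      rw [Matrix.of_apply, Complex.ofReal_tsum]
      refine tsum_congr fun k => ?_
      have h1 : coeff k (Pool.Agent.P8H40.HA.Ha α i (⟨(j : ℕ) - l, by omega⟩ : Fin (2 * m))) =
          coeff ((j : ℕ) - l) (shift k ^ (i : ℕ) * frob α k) := by
        unfold Pool.Agent.P8H40.HA.Ha
        rw [Matrix.of_apply, coeff_mk]
        rfl
      have h2 : (1 / ((t : ℝ) / c)) = (c : ℝ) / t := by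
        field_simp
      rw [h1, h2]
      push_cast
      rfl
    · intro a _ ha
      rw [if_neg, mul_zero]
      intro h
      apply ha
      apply Fin.ext
      simp only
      omega
    · intro h
      exact absurd (Finset.mem_univ _) h

/-- The theorem. `G`, `t₀`, `J` and `Jlim` depend only on the family, `κ` and `M₀` only on the family and on `k, r, δ, D`, and the
exceptional set `S` only on the family, on `k, r, δ, D`, on `M`, `z` and `T`. As `t l ≥ t₀ > c`, the series in the definition of `Y`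
converge absolutely. -/
theorem result (m : ℕ) (hm : 1 ≤ m) (α : Fin m → ℚ) (hα : ∀ j, ∀ a : ℤ, α j ≠ a) (c : ℕ) (hc : 1 ≤ c) :
    ∃ (G t₀ : ℕ) (J : ℕ → Matrix (Fin (2 * m)) (Fin (2 * m)) ℚ) (Jlim : Matrix (Fin (2 * m)) (Fin (2 * m)) ℚ),
      c < t₀ ∧ Jlim.transpose = -Jlim ∧ Jlim.det ≠ 0 ∧
      (∀ t : ℕ, t₀ ≤ t → (J t).transpose = -J t ∧ (J t).det ≠ 0 ∧
        (Y α c t).transpose * (J t).map (algebraMap ℚ ℂ) * Y α c t = Jlim.map (algebraMap ℚ ℂ)) ∧
      ∀ k r δ D : ℕ, ∃ (κ : ℝ) (M₀ : ℕ), 0 < κ ∧ t₀ ≤ M₀ ∧ ∀ M : ℕ, M₀ ≤ M → ∀ z : Fin r → ℂ,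
        ∀ T : Finset ℕ, (∀ t ∈ T, M ≤ t ∧ (t : ℝ) ≤ M + (M : ℝ) ^ κ) → (∀ t ∈ T, ∀ t' ∈ T, t ≠ t' → (G : ℤ) ≤ |(t : ℤ) - t'|) →
        ∃ S : Finset ℕ, S ⊆ T ∧ S.card ≤ r + 1 ∧ ∀ t : Fin k → ℕ, Function.Injective t → (∀ l, t l ∈ T \ S) →
          ∀ (K : IntermediateField ℚ ℂ) [FiniteDimensional ℚ K], finrank ℚ K ≤ D →
            ∀ (R : Fin k → Matrix (Fin (2 * m)) (Fin (2 * m)) K) (Ω : Fin k → Matrix (Fin (2 * m)) (Fin (2 * m)) ℂ),
              (∀ l i j, ∃ p : MvPolynomial (Fin r) K, (∀ x, p.degreeOf x ≤ δ) ∧ Ω l i j = MvPolynomial.aeval z p) →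
              Free α c t J Jlim δ z K R Ω := by
  obtain ⟨G, t₀, J, Jl, hG1, htc, hJl1, hJl2, hJ, hdense, hmain⟩ := Pool.Agent.P8H40.CY.final_T Pool.Agent.P8H93.CY.eli
    (Pool.Agent.P8H5.CY.gre Pool.Agent.P8H40.CY.clt) hm α hα c hc
  refine ⟨G, t₀, J, Jl, htc, hJl1, hJl2, fun t ht => ?_, fun k r δ D => ?_⟩
  · obtain ⟨h1, h2, h3, -⟩ := hJ t ht
    rw [Y_eq α c t hc (by omega)]
    exact ⟨h1, h2, h3⟩
  · obtain ⟨κ, M₀, hκ, hM₀, h⟩ := hmain k r δ D
    refine ⟨κ, M₀, hκ, hM₀, fun M hM z T hT hTs => ?_⟩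
    obtain ⟨S, hS, hSc, hSt⟩ := h M hM z T hT hTs
    refine ⟨S, hS, hSc, fun t htinj htT K _ hK R Ω hΩ => ?_⟩
    have ht : ∀ l, t₀ ≤ t l := fun l => hM₀.trans (hM.trans (hT (t l) (Finset.mem_sdiff.1 (htT l)).1).1)
    have hrel := hSt t htinj htT K hK R Ω hΩ
    have h3 : ∀ l, (Pool.Agent.P8H40.HA.Ya α c (t l)).transpose * (J (t l)).map (algebraMap ℚ ℂ) *
        Pool.Agent.P8H40.HA.Ya α c (t l) = Jl.map (algebraMap ℚ ℂ) := fun l => (hJ (t l) (ht l)).2.2.1
    choose X₀ hX₀ using fun l => (hJ (t l) (ht l)).2.2.2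
    have hY : (fun l => (R l).map (algebraMap K ℂ) * Y α c (t l) * Ω l) =
        fun l => (R l).map (algebraMap K ℂ) * Pool.Agent.P8H40.HA.Ya α c (t l) * Ω l := by
      funext l
      rw [Y_eq α c (t l) hc (by have := ht l; omega)]
    have hmap : ∀ (l : Fin k) (X : Matrix (Fin (2 * m)) (Fin (2 * m)) ℚ), X.transpose * J (t l) * X = Jl →
        (X.map (algebraMap ℚ ℂ)).transpose * (J (t l)).map (algebraMap ℚ ℂ) * X.map (algebraMap ℚ ℂ) =
          Jl.map (algebraMap ℚ ℂ) := by
      intro l X hX
      rw [← Matrix.transpose_map, ← Matrix.map_mul, ← Matrix.map_mul, hX]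
    refine ⟨fun F hF h0 L X hX => ?_, fun p q hp hq hpq => ?_, fun i F hF h0 hne => ?_⟩
    · rw [hY] at h0
      exact hrel F hF h0 L X hX
    · rw [hY] at hpq
      have h5 : ∀ F : MvPolynomial (Fin r ⊕ Fin k × Option (Fin (2 * m) × Fin (2 * m))) K, (∀ x, F.degreeOf x ≤ δ) →
          MvPolynomial.aeval (Pool.Agent.P8H40.CY.ptk z (fun l => ((Real.log (t l) : ℝ) : ℂ))
            fun l => (R l).map (algebraMap K ℂ) * Pool.Agent.P8H40.HA.Ya α c (t l) * Ω l) F = 0 →
          MvPolynomial.aeval (Pool.Agent.P8H40.CY.ptk z (fun _ => 0)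
            fun l => (R l).map (algebraMap K ℂ) * (X₀ l).map (algebraMap ℚ ℂ) * Ω l) F = 0 := fun F hF h0 =>
        hrel F hF h0 (fun _ => 0) (fun l => (X₀ l).map (algebraMap ℚ ℂ)) (fun l => hmap l (X₀ l) (hX₀ l))
      exact Pool.Agent.P8H40.CY.ring_k X₀ h5 p q hp hq hpq _ (fun l i j => Algebra.subset_adjoin ⟨l, i, j, rfl⟩)
    · obtain ⟨ζ, hζ⟩ := hne
      rw [hY] at h0 hζ
      by_contra hcon
      apply hζ
      refine hdense k r t ht K F (Function.update z i ζ) (fun l => (R l).map (algebraMap K ℂ)) Ω (fun L X hX => ?_)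
        (fun l => ((Real.log (t l) : ℝ) : ℂ)) (fun l => Pool.Agent.P8H40.HA.Ya α c (t l)) h3
      by_contra h1
      have h5 := hrel F hF h0 (fun l => (L l : ℂ)) (fun l => (X l).map (algebraMap ℚ ℂ)) (fun l => hmap l (X l) (hX l))
      exact hcon (Pool.Agent.P8H40.CY.field_k R Ω L X i F h5 ζ h1 (Algebra.adjoin K (z '' {j | j ≠ i} ∪ entries Ω))
        (fun j hj => Algebra.subset_adjoin (Or.inl ⟨j, hj, rfl⟩))
        (fun l x y => Algebra.subset_adjoin (Or.inr ⟨l, x, y, rfl⟩)))

end Pool.Agent.Results.MP_725b61_nt.CalabiYauFibres
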