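import Pool.Agent.Results.MP_725b61_nt.SimultaneousApproximations
import Pool.Agent.N407.OU.U
import Pool.Agent.P8H49.WT.Diag

/-!
# `e`, `1 / π`, Euler's constant, the periods of the curves of a family, and the orbits of the function of Euler

Polynomials with algebraic coefficients in the periods of the algebraic forms on a variety over the algebraic numbers
are periods in the sense of Kontsevich and Zagier. Is one of the numbers `e`, `1 / π`, `γ` of this kind? Let `F` be a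
family with symplectic monodromy over an open subset `U` of the line, for instance the products of the Legendre curve
with parameter `x` and other curves whose periods at `x` are hypergeometric functions.

Let `f` be a multiplicative function with positive integral values, of polynomial growth, with `f p ≤ M p` at the primes and
injective on the large primes (`LM`; for example the function of Euler and the sum of the divisors), let `G` be a function with
steps bounded below by a positive constant and of growth at most `v^d`, `d ≥ 1` (`Expanding`; for example `a v^d`), and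
`0 ≤ κ < 1`. Let `(K_i, k_i, z_i)` be a sequence of number fields in `ℂ`, of integers `k_i ≥ [K_i : ℚ]` and of complex numbers;
it may contain all number fields, all `k` and all elements of a given countable set, for example of the field generated by
`e`, `π` and `γ`. There is a function `L(m)` which tends to infinity such that for almost all `m` (all but `ε X` of the
`m ≤ X`, for all `X ≥ X(ε)`) the following holds for ALL `i, j ≤ L(m)` at once, with `v = f(φ_j(m))`, `φ_j` the `j`-th iterate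
of the function of Euler: for EVERY member of the family over a point `x` of `K_i` in `InnerM F.U k_i` with a height `T` within
`v^κ` of `G(v)`, none of the numbers `e`, `1 / π`, `γ`, and `z_i` (if it is not zero), is a value at the periods at `x`: of a
polynomial with coefficients of height at most `T ^ k_i` and degree at most `k_i`, and for `e`, `γ` and `z_i` in another way
than on the whole torsor of the period matrices.

The definitions are those of the starting file `SimultaneousApproximations`, which has the analogous theorem for the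
denominators of good approximations. The values of `f` and of the iterates of the function of Euler are taken with large
multiplicities, and those of the iterates are very sparse.

Proof. The elements of height at most `T` in the compact set which are bad at their own height are `O(T^ε)` in number
for every `ε > 0` (starting library, the covering argument of `PeriodsInSmallBalls`). For almost all `m` the orbit of `m` keeps
away from functions of such sets (starting library, `Pool.Agent.N407.OU`), and a diagonal argument deals with all `i` at once.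
-/

set_option autoImplicit false

open NumberField Filter

namespace Pool.Agent.Results.MP_725b61_nt.EulerOrbits

open Pool.Agent Pool.Agent.Y890.MV Pool.Agent.Y890.SM Pool.Agent.R349.PC
open Pool.Agent.N733.TG (LM Expanding lm_totient lm_sigma expanding_pow)
open Pool.Agent.Results.MP_725b61_nt.SimultaneousApproximations (height Value NontrivialValue)

section

variable {X : Type} [Fintype X] [DecidableEq X] {ι : Type} [Fintype ι] [DecidableEq ι] {n : ι → ℕ}

lemma not_value {F : SympFam X n} {k : ℕ} {K : Type} [Field K] [NumberField K] {io : K →+* ℂ} {T : ℝ} {z : ℂ}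
    {x : X → ℂ} (hgood : Good F k K io T z x) :
    (z ≠ 0 → ¬ NontrivialValue F k K io T z x) ∧ ¬ Value F k K io T ((1 / Real.pi : ℝ) : ℂ) x := by
  constructor
  · rintro hz0 ⟨q, c, h5, h6, h7, h8, h9⟩
    rcases h9 with ⟨Y, hY, h10⟩ | h9
    · exact h10 (hgood.1 q c h6 h7 h8 Y hY)
    · exact hgood.2.1 hz0 q c h5 h6 h7 h9 h8
  · rintro ⟨q, c, h5, h6, h7, h8⟩
    refine hgood.2.2.1 q c h5 h6 h7 ?_
    rw [← h8]
    push_cast
    rw [one_div]

/-- one field, one degree, one number -/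
lemma orb_one [Nonempty X] (hX : Fintype.card X = 1) (F : SympFam X n) {f : ℕ → ℕ} (hf : LM f) {G : ℕ → ℝ} {d : ℝ}
    (hG : Expanding G d) {κ : ℝ} (hκ : 0 ≤ κ) (hκ1 : κ < 1) (K : IntermediateField ℚ ℂ) [NumberField K] (k : ℕ)
    (hk : Module.finrank ℚ K ≤ k) (z : ℂ) :
    ∃ L : ℕ → ℕ, Tendsto L atTop atTop ∧ ∀ ε : ℝ, 0 < ε → ∃ N₀ : ℕ, ∀ N : ℕ, N₀ ≤ N →
      ({m : ℕ | 1 ≤ m ∧ m ≤ N ∧ ∃ j ≤ L m, ∃ x : K, (fun _ : X => (x : ℂ)) ∈ InnerM F.U k ∧
        |height K x - G (f (Nat.totient^[j] m))| ≤ (f (Nat.totient^[j] m) : ℝ) ^ κ ∧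
        ¬ Good F k K (algebraMap K ℂ) (height K x) z (fun _ => (x : ℂ))}.ncard : ℝ) ≤ ε * N := by
  have hd0 : 0 < d := by linarith [hG.one_le]
  obtain ⟨η, hη⟩ : ∃ η, η = (1 - κ) / (2 * d) := ⟨_, rfl⟩
  have hη0 : 0 < η := by
    rw [hη]
    apply div_pos (by linarith) (by linarith)
  have hηd : d * η + κ < 1 := by
    have : d * η = (1 - κ) / 2 := by
      rw [hη]
      field_simp
    rw [this]
    linarith
  obtain ⟨C, hC⟩ := N603.DB.count F hX k K hk (algebraMap K ℂ) z hη0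
  obtain ⟨L, hL, hL2⟩ := N407.OU.orbit_unif (T := K) hf hG (s := η) hη0.le hκ hηd C
  refine ⟨L, hL, fun ε hε => ?_⟩
  obtain ⟨N₀, hN₀⟩ := hL2 ε hε
  refine ⟨N₀, fun N hN => le_trans (le_of_eq ?_) (hN₀ {x : K | (fun _ : X => (algebraMap K ℂ x)) ∈ InnerM F.U k ∧
    ¬ Good F k K (algebraMap K ℂ) (N603.DB.height K x) z (fun _ => algebraMap K ℂ x)} (fun x => N603.DB.height K x)
    hC N hN)⟩
  congr 2
  ext m
  simp only [Set.mem_ofPred_eq]
  constructor
  · rintro ⟨h1, h2, j, h3, x, h4, h5, h6⟩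
    exact ⟨h1, h2, j, h3, x, ⟨h4, h6⟩, h5⟩
  · rintro ⟨h1, h2, j, h3, x, ⟨h4, h6⟩, h5⟩
    exact ⟨h1, h2, j, h3, x, h4, h5, h6⟩

/-- some number `e`, `1 / π`, `γ`, `z` is a value at the periods of the member over `x` -/
def SomeValue (F : SympFam X n) (k : ℕ) (K : Type) [Field K] [NumberField K] (io : K →+* ℂ) (T : ℝ) (z : ℂ)
    (x : X → ℂ) : Prop :=
  Value F k K io T ((1 / Real.pi : ℝ) : ℂ) x ∨ NontrivialValue F k K io T ((Real.exp 1 : ℝ) : ℂ) x ∨
    NontrivialValue F k K io T ((Real.eulerMascheroniConstant : ℝ) : ℂ) x ∨ (z ≠ 0 ∧ NontrivialValue F k K io T z x)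

/-- one field, one degree, one number, together with `e`, `1 / π`, `γ` -/
lemma orb_all [Nonempty X] (hX : Fintype.card X = 1) (F : SympFam X n) {f : ℕ → ℕ} (hf : LM f) {G : ℕ → ℝ} {d : ℝ}
    (hG : Expanding G d) {κ : ℝ} (hκ : 0 ≤ κ) (hκ1 : κ < 1) (K : IntermediateField ℚ ℂ) [NumberField K] (k : ℕ)
    (hk : Module.finrank ℚ K ≤ k) (z : ℂ) :
    ∃ L : ℕ → ℕ, Tendsto L atTop atTop ∧ ∀ ε : ℝ, 0 < ε → ∃ N₀ : ℕ, ∀ N : ℕ, N₀ ≤ N →
      ({m : ℕ | 1 ≤ m ∧ m ≤ N ∧ ∃ j ≤ L m, ∃ x : K, (fun _ : X => (x : ℂ)) ∈ InnerM F.U k ∧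
        |height K x - G (f (Nat.totient^[j] m))| ≤ (f (Nat.totient^[j] m) : ℝ) ^ κ ∧
        SomeValue F k K (algebraMap K ℂ) (height K x) z (fun _ => (x : ℂ))}.ncard : ℝ) ≤ ε * N := by
  classical
  have he : ((Real.exp 1 : ℝ) : ℂ) ≠ 0 := by exact_mod_cast (Real.exp_pos 1).ne'
  have hγ : ((Real.eulerMascheroniConstant : ℝ) : ℂ) ≠ 0 := by
    have := Real.one_half_lt_eulerMascheroniConstant
    have h0 : Real.eulerMascheroniConstant ≠ 0 := by
      intro h0
      rw [h0] at this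
      norm_num at this
    exact_mod_cast h0
  -- the three numbers in one sequence
  let w : ℕ → ℂ := fun i => if i = 0 then ((Real.exp 1 : ℝ) : ℂ) else
    if i = 1 then ((Real.eulerMascheroniConstant : ℝ) : ℂ) else z
  obtain ⟨L, hL, hL2⟩ := Pool.Agent.P8H49.WT.diag (B := fun i j m => ∃ x : K, (fun _ : X => (x : ℂ)) ∈ InnerM F.U k ∧
        |height K x - G (f (Nat.totient^[j] m))| ≤ (f (Nat.totient^[j] m) : ℝ) ^ κ ∧
        ¬ Good F k K (algebraMap K ℂ) (height K x) (w i) (fun _ => (x : ℂ)))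
    (fun i => orb_one hX F hf hG hκ hκ1 K k hk (w i))
  have hev : ∃ m₀ : ℕ, ∀ m, m₀ ≤ m → 2 ≤ L m := (tendsto_atTop.1 hL 2).exists_forall_of_atTop
  obtain ⟨m₀, hm₀⟩ := hev
  refine ⟨L, hL, fun ε hε => ?_⟩
  obtain ⟨N₀, hN₀⟩ := hL2 (ε / 2) (half_pos hε)
  obtain ⟨N₁, hN₁⟩ := exists_nat_gt (2 * (m₀ : ℝ) / ε)
  refine ⟨max N₀ N₁, fun N hN => ?_⟩
  have h1 := hN₀ N ((le_max_left _ _).trans hN)
  have h2 : (m₀ : ℝ) ≤ ε / 2 * N := by
    have e1 : (N₁ : ℝ) ≤ N := by exact_mod_cast (le_max_right _ _).trans hN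
    have e2 : 2 * (m₀ : ℝ) / ε < N := lt_of_lt_of_le hN₁ e1
    rw [div_lt_iff₀ hε] at e2
    linarith
  have hfin : {m : ℕ | 1 ≤ m ∧ m ≤ N ∧ ∃ i ≤ L m, ∃ j ≤ L m, ∃ x : K, (fun _ : X => (x : ℂ)) ∈ InnerM F.U k ∧
        |height K x - G (f (Nat.totient^[j] m))| ≤ (f (Nat.totient^[j] m) : ℝ) ^ κ ∧
        ¬ Good F k K (algebraMap K ℂ) (height K x) (w i) (fun _ => (x : ℂ))}.Finite :=
    (Set.finite_Icc 1 N).subset fun m hm => ⟨hm.1, hm.2.1⟩
  have hsub : {m : ℕ | 1 ≤ m ∧ m ≤ N ∧ ∃ j ≤ L m, ∃ x : K, (fun _ : X => (x : ℂ)) ∈ InnerM F.U k ∧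
        |height K x - G (f (Nat.totient^[j] m))| ≤ (f (Nat.totient^[j] m) : ℝ) ^ κ ∧
        SomeValue F k K (algebraMap K ℂ) (height K x) z (fun _ => (x : ℂ))} ⊆
      ((Finset.Ico 1 m₀ : Finset ℕ) : Set ℕ) ∪ {m : ℕ | 1 ≤ m ∧ m ≤ N ∧ ∃ i ≤ L m, ∃ j ≤ L m, ∃ x : K,
        (fun _ : X => (x : ℂ)) ∈ InnerM F.U k ∧
        |height K x - G (f (Nat.totient^[j] m))| ≤ (f (Nat.totient^[j] m) : ℝ) ^ κ ∧
        ¬ Good F k K (algebraMap K ℂ) (height K x) (w i) (fun _ => (x : ℂ))} := by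
    rintro m ⟨k1, k2, j, hj, x, hx, hxG, hval⟩
    by_cases hm : m < m₀
    · left
      rw [Finset.mem_coe, Finset.mem_Ico]
      exact ⟨k1, hm⟩
    · right
      rw [not_lt] at hm
      have hL3 := hm₀ m hm
      rcases hval with hv | hv | hv | ⟨hz, hv⟩
      · exact ⟨k1, k2, 0, by omega, j, hj, x, hx, hxG, fun hg => (not_value hg).2 hv⟩
      · exact ⟨k1, k2, 0, by omega, j, hj, x, hx, hxG, fun hg => (not_value hg).1 he hv⟩
      · exact ⟨k1, k2, 1, by omega, j, hj, x, hx, hxG, fun hg => (not_value hg).1 hγ hv⟩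
      · exact ⟨k1, k2, 2, hL3, j, hj, x, hx, hxG, fun hg => (not_value hg).1 hz hv⟩
  have h3 := (Set.ncard_le_ncard hsub ((Finset.finite_toSet _).union hfin)).trans (Set.ncard_union_le _ _)
  rw [Set.ncard_coe_finset] at h3
  have h4 : (Finset.Ico 1 m₀).card ≤ m₀ := by
    rw [Nat.card_Ico]
    omega
  have h5 := h3.trans (Nat.add_le_add_right h4 _)
  have h6 : ({m : ℕ | 1 ≤ m ∧ m ≤ N ∧ ∃ j ≤ L m, ∃ x : K, (fun _ : X => (x : ℂ)) ∈ InnerM F.U k ∧
        |height K x - G (f (Nat.totient^[j] m))| ≤ (f (Nat.totient^[j] m) : ℝ) ^ κ ∧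
        SomeValue F k K (algebraMap K ℂ) (height K x) z (fun _ => (x : ℂ))}.ncard : ℝ) ≤
      (m₀ : ℝ) + ({m : ℕ | 1 ≤ m ∧ m ≤ N ∧ ∃ i ≤ L m, ∃ j ≤ L m, ∃ x : K,
        (fun _ : X => (x : ℂ)) ∈ InnerM F.U k ∧
        |height K x - G (f (Nat.totient^[j] m))| ≤ (f (Nat.totient^[j] m) : ℝ) ^ κ ∧
        ¬ Good F k K (algebraMap K ℂ) (height K x) (w i) (fun _ => (x : ℂ))}.ncard : ℝ) := by
    exact_mod_cast h5
  linarith [h6, h1, h2]

end

theorem result :
    (∀ (X : Type) [Fintype X] [DecidableEq X] [Nonempty X], Fintype.card X = 1 →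
      ∀ (ι : Type) [Fintype ι] [DecidableEq ι] (n : ι → ℕ) (F : SympFam X n) (f : ℕ → ℕ) (G : ℕ → ℝ) (d : ℝ),
      LM f → Expanding G d → ∀ κ : ℝ, 0 ≤ κ → κ < 1 →
      ∀ (K : ℕ → IntermediateField ℚ ℂ) [∀ i, NumberField (K i)] (k : ℕ → ℕ) (z : ℕ → ℂ),
      (∀ i, Module.finrank ℚ (K i) ≤ k i) →
        ∃ L : ℕ → ℕ, Tendsto L atTop atTop ∧ ∀ ε : ℝ, 0 < ε → ∃ N₀ : ℕ, ∀ N : ℕ, N₀ ≤ N →
          ({m : ℕ | 1 ≤ m ∧ m ≤ N ∧ ∃ i ≤ L m, ∃ j ≤ L m, ∃ x : K i, (fun _ : X => (x : ℂ)) ∈ InnerM F.U (k i) ∧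
            |height (K i) x - G (f (Nat.totient^[j] m))| ≤ (f (Nat.totient^[j] m) : ℝ) ^ κ ∧
            SomeValue F (k i) (K i) (algebraMap (K i) ℂ) (height (K i) x) (z i) (fun _ => (x : ℂ))}.ncard : ℝ) ≤
              ε * N) ∧
    (LM Nat.totient ∧ LM (fun m => ∑ d ∈ m.divisors, d)) ∧
    ∀ a d : ℝ, 0 < a → 1 ≤ d → Expanding (fun v => a * (v : ℝ) ^ d) d := by
  refine ⟨fun X _ _ _ hX ι _ _ n F f G d hf hG κ hκ hκ1 K _ k z hk => ?_, ⟨lm_totient, lm_sigma⟩,
    fun a d ha hd => expanding_pow ha hd⟩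
  exact Pool.Agent.P8H49.WT.diag (B := fun i j m => ∃ x : K i, (fun _ : X => (x : ℂ)) ∈ InnerM F.U (k i) ∧
            |height (K i) x - G (f (Nat.totient^[j] m))| ≤ (f (Nat.totient^[j] m) : ℝ) ^ κ ∧
            SomeValue F (k i) (K i) (algebraMap (K i) ℂ) (height (K i) x) (z i) (fun _ => (x : ℂ)))
    (fun i => orb_all hX F hf hG hκ hκ1 (K i) (k i) (hk i) (z i))

end Pool.Agent.Results.MP_725b61_nt.EulerOrbits
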