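import Pool.Agent.P8H40.PL.Main
import Pool.Agent.P8H73.PL.Gsp
import Pool.Agent.P8H37.PL.Qup
import Pool.Agent.P8H78.PL.Inp

/-!
# `e`, `1 / π`, Euler's constant and the values of polylogarithms

The polylogarithms `Li_s(x) = ∑_(m ≥ 1) x^m / m^s` at rational numbers `x` are periods (of mixed Tate motives); `log t`, the
numbers `-log (1 - α / t) = Li_1(α / t)` and all `Li_s(α / t)` are periods. Is one of the numbers `e`, `1 / π`, `γ` a polynomial in
such periods?

Let `α_1, …, α_n` be different nonzero integers, `z_1, …, z_r` ANY complex numbers, for example `e`, `1 / π`, `γ`, or the values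
of the zeta function, and let `T` be any set of integers in a window `[M, M + M^c]`, `M ≥ M₀`, with mutual distances at least
`G`. We show: `T` has at most `r + 1` exceptional elements, such that for ALL different `t_1, …, t_k` among the other ones every
polynomial relation between `z_1, …, z_r`, the numbers `log t_l` and all `Li_s(α_i / t_l)` with `s ≤ W`, with coefficients in any
number field of degree at most `D` (no bound for the heights) and of degree at most `δ` in each unknown, is trivial: it is
a relation for all values of `log t_l`, `Li_s(α_i / t_l)`. Here `c > 0` and `M₀` depend only on the `α_i` and on `W`, `k`, `r`, `δ`, `D`, not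
on the numbers `z_i`. In particular:

* (`r = 1`) for all these `t_1, …, t_k`, `e` and `1 / π` (any transcendental number) are roots of no nonzero polynomial of degree at
  most `δ` whose coefficients are polynomials of degree at most `δ` in the `log t_l` and `Li_s(α_i / t_l)`, and `γ` (any
  number `z`) is no quotient of two such polynomials, unless `z` is in the field `K` of coefficients;
* (`r = 0`) all but at most one element of `T` have the property that for all `t_1, …, t_k` among them the `k (n W + 1)` numbers
  `log t_l`, `Li_s(α_i / t_l)` satisfy no nonzero relation of degree at most `δ` in each of them.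

The proof: the polylogarithms `Li_s(α_i x)` are algebraically independent functions, and together with `1` they are a system
of G-functions with quasiunipotent monodromy. The numbers `Li_s(α_i / t_l)` (without the `log t_l`) at points with distances at
least `G` are independent in bounded degree, by the criterion of the starting files. If there is a nontrivial relation for
a tuple then the numbers at one of its elements are dependent, in bounded degree, over the `z_i` and the numbers at the
others. If there are too many exceptions one obtains `r + 2` integers, the numbers at each of them dependent over the `z_i`,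
the numbers at the preceding ones and at other integers of `T`; adding the groups one after another, the dimension of the
space of the polynomials of degree `n` grows too slowly. (Authors: helper40; helper73: the G-system of the
polylogarithms; helper37: its monodromy at the origin; helper78: the algebraic independence of the functions; helper93:
partial evaluation of relations; helper5: choice of the exceptions.)
-/

set_option autoImplicit false

open Module

namespace Pool.Agent.Results.MP_725b61_nt.PolylogarithmValues

/-- the polylogarithm `Li_s(x) = ∑_(m ≥ 1) x^m / m^s`, `|x| < 1` -/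
noncomputable def Li (s : ℕ) (x : ℝ) : ℝ := ∑' m : ℕ, x ^ (m + 1) / ((m : ℝ) + 1) ^ s

/-- the numbers at `t`: `log t` and `Li_s(α_i / t)`, `1 ≤ s ≤ W` -/
noncomputable def values {n : ℕ} (α : Fin n → ℤ) (W t : ℕ) : Option (Fin n × Fin W) → ℂ
  | none => ((Real.log t : ℝ) : ℂ)
  | some (i, s) => ((Li ((s : ℕ) + 1) (α i / t) : ℝ) : ℂ)

/-- The theorem. As `|α_i| < M₀ ≤ t`, the series converge. -/
theorem result {n : ℕ} (α : Fin n → ℤ) (hα : Function.Injective α) (hα0 : ∀ i, α i ≠ 0) (W : ℕ) :
    ∃ G : ℕ, ∀ k r δ D : ℕ, ∃ (c : ℝ) (M₀ : ℕ), 0 < c ∧ (∀ i, (α i).natAbs < M₀) ∧ ∀ M : ℕ, M₀ ≤ M → ∀ z : Fin r → ℂ,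
      ∀ T : Finset ℕ, (∀ t ∈ T, M ≤ t ∧ (t : ℝ) ≤ M + (M : ℝ) ^ c) → (∀ t ∈ T, ∀ t' ∈ T, t ≠ t' → (G : ℤ) ≤ |(t : ℤ) - t'|) →
      ∃ S : Finset ℕ, S ⊆ T ∧ S.card ≤ r + 1 ∧ ∀ t : Fin k → ℕ, Function.Injective t → (∀ l, t l ∈ T \ S) →
        ∀ (K : IntermediateField ℚ ℂ) [FiniteDimensional ℚ K], finrank ℚ K ≤ D →
          ∀ P : MvPolynomial (Fin r ⊕ Fin k × Option (Fin n × Fin W)) K, (∀ x, P.degreeOf x ≤ δ) →
            MvPolynomial.aeval (Sum.elim z fun x => values α W (t x.1) x.2) P = 0 →
              (MvPolynomial.aeval (Sum.elim (fun i => MvPolynomial.C (z i)) MvPolynomial.X) P :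
                MvPolynomial (Fin k × Option (Fin n × Fin W)) ℂ) = 0 := by
  obtain ⟨G, -, hG⟩ := P8H40.PL.polylog_sets P8H73.PL.gsp P8H37.PL.qup P8H78.PL.inp α hα hα0 W
  refine ⟨G, fun k r δ D => ?_⟩
  obtain ⟨c, M₀, hc, h⟩ := hG k r δ D
  refine ⟨c, M₀ + ∑ i, ((α i).natAbs + 1), hc, fun i => ?_, fun M hM z T hT hTs => ?_⟩
  · have := Finset.single_le_sum (f := fun i => (α i).natAbs + 1) (fun _ _ => Nat.zero_le _) (Finset.mem_univ i)
    omega
  obtain ⟨S, hS, hSc, hm⟩ := h M (by omega) z T hT hTs
  refine ⟨S, hS, hSc, fun t h1 h2 K _ hK P hP h0 => hm t h1 h2 K hK P hP ?_⟩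
  rw [← h0]
  congr 2
  funext x
  rcases x with i | ⟨l, (_ | ⟨i, s⟩)⟩ <;> rfl

end Pool.Agent.Results.MP_725b61_nt.PolylogarithmValues
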